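import Pool.Agent.Lib.P6ec3b3.Dir2
import Pool.Agent.Lib.P6ec3b3.Nilradical

/-!
# Reducing the rank of solvable Lie algebras with negative Ricci curvature

A nonzero real solvable Lie algebra `g` with nilradical `n` carries an inner product with negative
Ricci curvature if and only if there is `Y ∉ n` such that the subalgebra `ℝ Y ⊕ n` carries an
inner product with negative Ricci curvature.
-/

namespace Pool.Agent.Results.MP_6ec3b3_gt.RankReduction

open Pool.Agent.Lib.P6ec3b3

/-- Affirmative answer to Q1: conditions (i) and (ii) are equivalent for every nonzero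
finite-dimensional real solvable Lie algebra `g`; `n` is its nilradical, the greatest nilpotent
ideal. -/
theorem result (g : Type*) [LieRing g] [LieAlgebra ℝ g] [FiniteDimensional ℝ g]
    [LieAlgebra.IsSolvable g] [Nontrivial g] :
    ∃ n : LieIdeal ℝ g, IsGreatest {I : LieIdeal ℝ g | LieRing.IsNilpotent I} n ∧
      (HasNegRicci g ↔ ∃ Y : g, Y ∉ n ∧ ∃ s : LieSubalgebra ℝ g,
        s.toSubmodule = Submodule.span ℝ {Y} ⊔ LieSubmodule.toSubmodule n ∧ HasNegRicci s) := by
  obtain ⟨n, hn⟩ := exists_nilradical g
  refine ⟨n, hn, ?_⟩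
  have hgn : ∀ x y : g, ⁅x, y⁆ ∈ n := lie_mem_nilradical n hn
  have hnil : ActsNil n := (nilpotent_iff_actsNil n).mp hn.1
  have hmax : ∀ I : LieIdeal ℝ g, ActsNil I → I ≤ n := fun I hI =>
    hn.2 ((nilpotent_iff_actsNil I).mpr hI)
  constructor
  · intro h
    exact dir1 n hgn hnil (nilradical_ne_bot n hgn hmax) h
  · rintro ⟨Y, -, s, hs, hneg⟩
    have hns : ∀ x ∈ n, x ∈ s := by
      intro x hx
      have h1 : x ∈ s.toSubmodule := by
        rw [hs]
        exact Submodule.mem_sup_right hx
      exact h1
    exact dir2 n hgn hnil s hns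
      (fun Z hZ => mem_of_centralizes n hgn hnil hmax Z fun x hx => hZ x (hns x hx)) hneg

end Pool.Agent.Results.MP_6ec3b3_gt.RankReduction
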